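import Mathlib

/-!
# MP_410f3c_al: the factorial functional in characteristic `p`
-/

set_option autoImplicit false

open MvPolynomial Finset

namespace Pool.Agent.MP_410f3c_al

/-- the factorial functional over any commutative ring -/
noncomputable def facL {R : Type*} [CommRing R] {n : ℕ} (P : MvPolynomial (Fin n) R) : R :=
  ∑ s ∈ P.support, coeff s P * ∏ i : Fin n, ((s i).factorial : R)

lemma facL_eq {R : Type*} [CommRing R] {n : ℕ} (P : MvPolynomial (Fin n) R)
    (T : Finset (Fin n →₀ ℕ)) (hT : P.support ⊆ T) :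
    facL P = ∑ s ∈ T, coeff s P * ∏ i : Fin n, ((s i).factorial : R) := by
  unfold facL
  apply sum_subset hT
  intro s _ hs
  rw [notMem_support_iff.mp hs, zero_mul]

lemma facL_map {R S : Type*} [CommRing R] [CommRing S] {n : ℕ} (ψ : R →+* S)
    (P : MvPolynomial (Fin n) R) : facL (map ψ P) = ψ (facL P) := by
  rw [facL_eq (map ψ P) P.support (support_map_subset ψ P), facL, map_sum]
  refine sum_congr rfl fun s _ => ?_
  rw [coeff_map, map_mul, map_prod]
  simp

/-- the exponent `(c, …, c)` -/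
noncomputable def diag (n c : ℕ) : Fin n →₀ ℕ := Finsupp.equivFunOnFinite.symm fun _ => c

@[simp] lemma diag_apply (n c : ℕ) (i : Fin n) : diag n c i = c := rfl

/-- weights of the monomials of a power -/
lemma weight_pow {R : Type*} [CommRing R] {n : ℕ} (w : Fin n → ℕ) (d : ℕ)
    (f : MvPolynomial (Fin n) R) (hf : ∀ s ∈ f.support, d ≤ ∑ i, w i * s i) (m : ℕ) :
    ∀ s ∈ (f ^ m).support, m * d ≤ ∑ i, w i * s i := by
  classical
  induction m with
  | zero => intro s _; simp
  | succ m ih =>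
    intro s hs
    rw [pow_succ] at hs
    obtain ⟨a, ha, b, hb, rfl⟩ := mem_add.mp (support_mul _ _ hs)
    have h1 := ih a ha
    have h2 := hf b hb
    have h3 : ∑ i, w i * (a + b) i = ∑ i, w i * a i + ∑ i, w i * b i := by
      rw [← sum_add_distrib]
      refine sum_congr rfl fun i _ => ?_
      rw [Finsupp.add_apply, mul_add]
    rw [h3, add_mul, one_mul]
    omega

lemma eq_diag {n : ℕ} (w : Fin n → ℕ) (hw : ∀ i, 0 < w i) (p : ℕ) (s : Fin n →₀ ℕ)
    (hs : ∀ i, s i < p) (h : (∑ i, w i) * (p - 1) ≤ ∑ i, w i * s i) : s = diag n (p - 1) := by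
  have h1 : ∀ i ∈ (univ : Finset (Fin n)), w i * s i ≤ w i * (p - 1) := fun i _ =>
    Nat.mul_le_mul_left _ (by have := hs i; omega)
  have h2 : ∑ i, w i * s i = ∑ i, w i * (p - 1) := by
    apply le_antisymm (sum_le_sum h1)
    rw [← sum_mul]; exact h
  ext i
  have h3 := (sum_eq_sum_iff_of_le h1).mp h2 i (mem_univ i)
  exact Nat.eq_of_mul_eq_mul_left (hw i) h3

/-- the Frobenius power of the maximal ideal at the origin -/
noncomputable def frobIdeal (D : Type*) [CommRing D] (n p : ℕ) : Ideal (MvPolynomial (Fin n) D) :=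
  Ideal.span ((fun s => monomial s (1 : D)) '' {s | ∃ i, s = Finsupp.single i p})

lemma prod_monomial {D : Type*} [CommRing D] {n : ℕ} (S : Finset (Fin n →₀ ℕ))
    (c : (Fin n →₀ ℕ) → D) (k : (Fin n →₀ ℕ) → ℕ) :
    ∏ b ∈ S, (monomial b (c b) : MvPolynomial (Fin n) D) ^ k b =
      monomial (∑ b ∈ S, k b • b) (∏ b ∈ S, c b ^ k b) := by
  classical
  induction S using Finset.induction_on with
  | empty => simp
  | insert a S ha ih =>
    rw [prod_insert ha, ih, sum_insert ha, prod_insert ha, monomial_pow, monomial_mul]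

section

variable {D : Type*} [CommRing D] [IsDomain D] {p : ℕ} [hp : Fact p.Prime] [CharP D p] {n : ℕ}

omit [IsDomain D] in
lemma factorial_eq_zero {k : ℕ} (hk : p ≤ k) : ((k.factorial : ℕ) : D) = 0 :=
  (CharP.cast_eq_zero_iff D p _).mpr ((hp.out.dvd_factorial).mpr hk)

omit [IsDomain D] in
lemma factorial_ne_zero {k : ℕ} (hk : k < p) : ((k.factorial : ℕ) : D) ≠ 0 := by
  rw [Ne, CharP.cast_eq_zero_iff D p, hp.out.dvd_factorial]
  omega

lemma mem_frobIdeal {x : MvPolynomial (Fin n) D} :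
    x ∈ frobIdeal D n p ↔ ∀ s ∈ x.support, ∃ i, p ≤ s i := by
  unfold frobIdeal
  rw [mem_ideal_span_monomial_image]
  refine forall₂_congr fun s _ => ?_
  constructor
  · rintro ⟨_, ⟨i, rfl⟩, h⟩
    refine ⟨i, ?_⟩
    have := h i
    rwa [Finsupp.single_eq_same] at this
  · rintro ⟨i, hi⟩
    exact ⟨_, ⟨i, rfl⟩, Finsupp.single_le_iff.mpr hi⟩

lemma pow_mem_frobIdeal (q : MvPolynomial (Fin n) D) (hq : constantCoeff q = 0) :
    q ^ p ∈ frobIdeal D n p := by
  have hc : CharP (MvPolynomial (Fin n) D) p := inferInstance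
  have he : q ^ p = ∑ s ∈ q.support, (monomial s (coeff s q)) ^ p := by
    conv_lhs => rw [as_sum q]
    rw [sum_pow_char]
  rw [he]
  refine Ideal.sum_mem _ fun s hs => ?_
  rw [monomial_pow, mem_frobIdeal]
  intro t ht
  have h1 : t = p • s := by
    have := support_monomial_subset ht
    simpa using this
  subst h1
  have h2 : s ≠ 0 := by
    rintro rfl
    rw [mem_support_iff] at hs
    exact hs (by simpa [constantCoeff_eq] using hq)
  obtain ⟨i, hi⟩ := Finsupp.ne_iff.mp h2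
  refine ⟨i, ?_⟩
  rw [Finsupp.smul_apply, smul_eq_mul]
  exact Nat.le_mul_of_pos_right _ (Nat.pos_of_ne_zero hi)

lemma aeval_mem_frobIdeal (φ : Fin n → MvPolynomial (Fin n) D)
    (hφ : ∀ i, constantCoeff (φ i) = 0) {x : MvPolynomial (Fin n) D}
    (hx : x ∈ frobIdeal D n p) : aeval φ x ∈ frobIdeal D n p := by
  have h : frobIdeal D n p ≤ (frobIdeal D n p).comap (aeval φ : _ →ₐ[D] _).toRingHom := by
    conv_lhs => unfold frobIdeal
    rw [Ideal.span_le]
    rintro _ ⟨_, ⟨i, rfl⟩, rfl⟩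
    change aeval φ (monomial (Finsupp.single i p) (1 : D)) ∈ frobIdeal D n p
    have : (monomial (Finsupp.single i p) (1 : D) : MvPolynomial (Fin n) D) = X i ^ p := by
      rw [X_pow_eq_monomial]
    rw [this, map_pow, aeval_X]
    exact pow_mem_frobIdeal _ (hφ i)
  exact h hx

/-- The core computation. -/
theorem core (w : Fin n → ℕ) (hw : ∀ i, 0 < w i) (d m : ℕ)
    (hmd : (∑ i, w i) * (p - 1) ≤ m * d) (f : MvPolynomial (Fin n) D)
    (hf : ∀ s ∈ f.support, d ≤ ∑ i, w i * s i) (φ : Fin n → MvPolynomial (Fin n) D)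
    (hφ : ∀ i, constantCoeff (φ i) = 0) (h0 : facL (f ^ m) = 0) :
    coeff (diag n (p - 1)) ((aeval φ f) ^ m) = 0 := by
  have hp1 := hp.out.one_lt
  have h1 : ∀ s ∈ (f ^ m).support, (∀ i, s i < p) → s = diag n (p - 1) := fun s hs h =>
    eq_diag w hw p s h (hmd.trans (weight_pow w d f hf m s hs))
  have h2 : f ^ m ∈ frobIdeal D n p := by
    rw [mem_frobIdeal]
    intro s hs
    by_contra hcon
    push Not at hcon
    have hs1 := h1 s hs hcon
    have h3 : facL (f ^ m) = coeff s (f ^ m) * ∏ i : Fin n, ((s i).factorial : D) := by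
      unfold facL
      apply sum_eq_single_of_mem s hs
      intro t ht hts
      have : ¬ ∀ i, t i < p := fun h => hts ((h1 t ht h).trans hs1.symm)
      push Not at this
      obtain ⟨i, hi⟩ := this
      rw [prod_eq_zero (mem_univ i) (factorial_eq_zero hi), mul_zero]
    rw [h3] at h0
    rcases mul_eq_zero.mp h0 with h4 | h4
    · exact (mem_support_iff.mp hs) h4
    · rw [prod_eq_zero_iff] at h4
      obtain ⟨i, -, hi⟩ := h4
      exact factorial_ne_zero (hcon i) hi
  have h3 := aeval_mem_frobIdeal φ hφ h2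
  rw [map_pow, mem_frobIdeal] at h3
  by_contra hcon
  obtain ⟨i, hi⟩ := h3 _ (mem_support_iff.mpr hcon)
  rw [diag_apply] at hi
  omega

omit [IsDomain D] in
lemma coeff_pow (S : Finset (Fin n →₀ ℕ)) (c : (Fin n →₀ ℕ) → D) (m : ℕ) (t : Fin n →₀ ℕ)
    (k₀ : (Fin n →₀ ℕ) → ℕ) (hk₀ : k₀ ∈ piAntidiag S m) (ht : ∑ b ∈ S, k₀ b • b = t)
    (hu : ∀ k ∈ piAntidiag S m, ∑ b ∈ S, k b • b = t → k = k₀) :
    coeff t ((∑ b ∈ S, monomial b (c b)) ^ m) =
      (Nat.multinomial S k₀ : D) * ∏ b ∈ S, c b ^ k₀ b := by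
  rw [sum_pow_eq_sum_piAntidiag, coeff_sum]
  have h1 : ∀ k : (Fin n →₀ ℕ) → ℕ, coeff t ((Nat.multinomial S k : MvPolynomial (Fin n) D) *
      ∏ b ∈ S, (monomial b (c b)) ^ k b) =
      if ∑ b ∈ S, k b • b = t then (Nat.multinomial S k : D) * ∏ b ∈ S, c b ^ k b else 0 := by
    intro k
    rw [prod_monomial, ← C_eq_coe_nat, coeff_C_mul, coeff_monomial]
    split_ifs <;> simp
  simp_rw [h1]
  rw [sum_eq_single_of_mem k₀ hk₀, if_pos ht]
  intro k hk hne
  rw [if_neg fun h => hne (hu k hk h)]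

end

end Pool.Agent.MP_410f3c_al
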