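import Mathlib

/-!
# MP_410f3c_al: specialisation of finitely generated rings to positive characteristic
-/

set_option autoImplicit false

open PrimeSpectrum

namespace Pool.Agent.MP_410f3c_al

/-- A finitely generated domain of characteristic zero has, for all but finitely many primes `p`,
a quotient domain of characteristic `p`. -/
theorem exists_quotient (R : Type) [CommRing R] [IsDomain R] [CharZero R]
    [Algebra.FiniteType ℤ R] :
    ∃ N : ℕ, N ≠ 0 ∧ ∀ p : ℕ, p.Prime → ¬ p ∣ N →
      ∃ I : Ideal R, I.IsPrime ∧ (p : R) ∈ I := by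
  have hfp : (algebraMap ℤ R).FinitePresentation :=
    RingHom.finitePresentation_algebraMap.mpr (Algebra.FinitePresentation.of_finiteType.mp ‹_›)
  obtain ⟨S, hS⟩ := exists_constructibleSetData_iff.mpr (isConstructible_range_comap hfp)
  have h0 : (⊥ : PrimeSpectrum ℤ) ∈ S.toSet := by
    rw [hS]
    refine ⟨⊥, ?_⟩
    ext x
    simp
  rw [ConstructibleSetData.toSet, Set.mem_iUnion₂] at h0
  obtain ⟨C, hC, h1, h2⟩ := h0
  have hf : C.f ≠ 0 := by
    intro h
    apply h2
    rw [h]
    simp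
  have hg : ∀ i, C.g i = 0 := by
    intro i
    have := (mem_zeroLocus _ _).1 h1 ⟨i, rfl⟩
    simpa using this
  refine ⟨C.f.natAbs, by simpa using hf, fun p hp hpN => ?_⟩
  have hpp : (Ideal.span {(p : ℤ)}).IsPrime := by
    rw [Ideal.span_singleton_prime (by exact_mod_cast hp.ne_zero)]
    exact Nat.prime_iff_prime_int.mp hp
  have h3 : (⟨Ideal.span {(p : ℤ)}, hpp⟩ : PrimeSpectrum ℤ) ∈ S.toSet := by
    rw [ConstructibleSetData.toSet, Set.mem_iUnion₂]
    refine ⟨C, hC, ?_, ?_⟩
    · rw [mem_zeroLocus]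
      rintro _ ⟨i, rfl⟩
      rw [hg i]
      simp
    · rw [mem_zeroLocus]
      intro h
      have h4 : C.f ∈ Ideal.span {(p : ℤ)} := h rfl
      rw [Ideal.mem_span_singleton] at h4
      exact hpN (Int.natCast_dvd.mp h4)
  rw [hS] at h3
  obtain ⟨Q, hQ⟩ := h3
  refine ⟨Q.asIdeal, Q.2, ?_⟩
  have h5 : (p : ℤ) ∈ (comap (algebraMap ℤ R) Q).asIdeal := by
    rw [hQ]
    exact Ideal.mem_span_singleton_self _
  rw [comap_asIdeal, Ideal.mem_comap] at h5
  simpa using h5

end Pool.Agent.MP_410f3c_al
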