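import Pool.Agent.MP_410f3c_al.Core
import Pool.Agent.MP_410f3c_al.Special

/-!
# MP_410f3c_al: the Factorial Conjecture for polynomials with a log canonical simplicial initial part
-/

set_option autoImplicit false

open MvPolynomial Finset

namespace Pool.Agent.MP_410f3c_al

/-- lifting a polynomial to a subring containing its coefficients -/
lemma exists_lift {n : ℕ} (R : Subalgebra ℤ ℂ) (f : MvPolynomial (Fin n) ℂ)
    (hf : ∀ s, coeff s f ∈ R) :
    ∃ f₀ : MvPolynomial (Fin n) R, map R.val.toRingHom f₀ = f := by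
  classical
  refine ⟨∑ s ∈ f.support, monomial s ⟨coeff s f, hf s⟩, ?_⟩
  rw [map_sum]
  conv_rhs => rw [as_sum f]
  refine sum_congr rfl fun s _ => ?_
  rw [map_monomial]
  rfl

/-- the arithmetic of one prime -/
theorem one_prime {n : ℕ} (f : MvPolynomial (Fin n) ℂ)
    (φ : Fin n → MvPolynomial (Fin n) ℂ) (w : Fin n → ℕ) (d : ℕ) (hw : ∀ i, 0 < w i)
    (hf : ∀ s ∈ f.support, d ≤ ∑ i, w i * s i)
    (hφ : ∀ i, constantCoeff (φ i) = 0) :
    ∃ N : ℕ, N ≠ 0 ∧ ∀ p : ℕ, p.Prime → ¬ p ∣ N → ∀ (m : ℕ), m < p →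
      (∑ i, w i) * (p - 1) ≤ m * d →
      ∀ k₀ ∈ piAntidiag (aeval φ f).support m,
        ∑ b ∈ (aeval φ f).support, k₀ b • b = diag n (p - 1) →
        (∀ k ∈ piAntidiag (aeval φ f).support m,
          ∑ b ∈ (aeval φ f).support, k b • b = diag n (p - 1) → k = k₀) →
        facL (f ^ m) ≠ 0 := by
  classical
  set g := aeval φ f with hg
  set T : Finset ℂ := (f.support.image fun s => coeff s f) ∪
    (univ.biUnion fun i => (φ i).support.image fun s => coeff s (φ i)) ∪
    (g.support.image fun s => (coeff s g)⁻¹) with hT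
  set R : Subalgebra ℤ ℂ := Algebra.adjoin ℤ (T : Set ℂ) with hR
  have hTR : ∀ c ∈ T, c ∈ R := fun c hc => Algebra.subset_adjoin (by exact_mod_cast hc)
  have hfR : ∀ s, coeff s f ∈ R := by
    intro s
    by_cases hs : s ∈ f.support
    · exact hTR _ (mem_union_left _ (mem_union_left _ (mem_image_of_mem _ hs)))
    · rw [notMem_support_iff.mp hs]; exact R.zero_mem
  have hφR : ∀ i s, coeff s (φ i) ∈ R := by
    intro i s
    by_cases hs : s ∈ (φ i).support
    · exact hTR _ (mem_union_left _ (mem_union_right _ (mem_biUnion.mpr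
        ⟨i, mem_univ i, mem_image_of_mem _ hs⟩)))
    · rw [notMem_support_iff.mp hs]; exact R.zero_mem
  have hgR : ∀ s ∈ g.support, (coeff s g)⁻¹ ∈ R := fun s hs =>
    hTR _ (mem_union_right _ (mem_image_of_mem _ hs))
  obtain ⟨f₀, hf₀⟩ := exists_lift R f hfR
  have hφ' : ∀ i, ∃ q : MvPolynomial (Fin n) R, map R.val.toRingHom q = φ i := fun i =>
    exists_lift R (φ i) (hφR i)
  choose φ₀ hφ₀ using hφ'
  set ι : R →+* ℂ := R.val.toRingHom with hι
  have hinj : Function.Injective ι := Subtype.val_injective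
  set g₀ := aeval φ₀ f₀ with hg₀
  have hmapg : map ι g₀ = g := by
    rw [hg₀, hg, ← hf₀]
    have h1 : (map ι).comp (aeval φ₀ : _ →ₐ[R] MvPolynomial (Fin n) R).toRingHom =
        ((aeval φ : _ →ₐ[ℂ] MvPolynomial (Fin n) ℂ).toRingHom).comp (map ι) := by
      apply MvPolynomial.ringHom_ext
      · intro r
        simp
      · intro i
        simp [hφ₀]
    exact RingHom.congr_fun h1 f₀
  have hsupp : g₀.support = g.support := by
    rw [← hmapg, support_map_of_injective _ hinj]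
  have hft : Algebra.FiniteType ℤ R := by
    rw [← Subalgebra.fg_iff_finiteType]
    exact ⟨T, rfl⟩
  obtain ⟨N, hN, hNp⟩ := exists_quotient R
  refine ⟨N, hN, fun p hp hpN m hmp hmd k₀ hk₀ hk₁ hu h0 => ?_⟩
  obtain ⟨I, hI, hpI⟩ := hNp p hp hpN
  have : Fact p.Prime := ⟨hp⟩
  set D := R ⧸ I
  have hpD : ((p : ℕ) : D) = 0 := by
    have : (Ideal.Quotient.mk I) (p : R) = 0 := Ideal.Quotient.eq_zero_iff_mem.mpr hpI
    simpa using this
  have hchar : CharP D p := (CharP.charP_iff_prime_eq_zero hp).mpr hpD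
  set ψ : R →+* D := Ideal.Quotient.mk I
  -- the functional
  have h1 : facL ((map ψ f₀) ^ m) = 0 := by
    rw [← map_pow, facL_map]
    have h2 : ι (facL (f₀ ^ m)) = 0 := by
      rw [← facL_map, map_pow, hf₀]; exact h0
    rw [(map_eq_zero_iff ι hinj).mp h2, map_zero]
  have h2 := core (p := p) w hw d m hmd (map ψ f₀) (fun s hs => hf s (by
      have h3 := support_map_subset ψ f₀ hs
      rw [← hf₀]
      rwa [support_map_of_injective _ hinj])) (fun i => map ψ (φ₀ i)) (fun i => by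
      have h3 : ι (constantCoeff (φ₀ i)) = 0 := by
        rw [← constantCoeff_map, hφ₀]; exact hφ i
      rw [constantCoeff_map, (map_eq_zero_iff ι hinj).mp h3, map_zero]) h1
  have h3 : aeval (fun i => map ψ (φ₀ i)) (map ψ f₀) = map ψ g₀ := by
    have h4 : (map ψ).comp (aeval φ₀ : _ →ₐ[R] MvPolynomial (Fin n) R).toRingHom =
        ((aeval (fun i => map ψ (φ₀ i)) : _ →ₐ[D] MvPolynomial (Fin n) D).toRingHom).comp
          (map ψ) := by
      apply MvPolynomial.ringHom_ext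
      · intro r
        simp
      · intro i
        simp
    exact (RingHom.congr_fun h4 f₀).symm
  rw [h3] at h2
  have h4 : map ψ g₀ = ∑ b ∈ g.support, monomial b (ψ (coeff b g₀)) := by
    conv_lhs => rw [as_sum g₀, map_sum, hsupp]
    refine sum_congr rfl fun s _ => ?_
    rw [map_monomial]
  rw [h4, coeff_pow _ _ m _ k₀ hk₀ hk₁ hu] at h2
  rcases mul_eq_zero.mp h2 with h5 | h5
  · rw [CharP.cast_eq_zero_iff D p] at h5
    have h6 : Nat.multinomial g.support k₀ ∣ m.factorial := by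
      refine ⟨∏ i ∈ g.support, (k₀ i).factorial, ?_⟩
      rw [mul_comm, Nat.multinomial_spec, (mem_piAntidiag.mp hk₀).1]
    have h7 := (hp.dvd_factorial).mp (h5.trans h6)
    omega
  · rw [prod_eq_zero_iff] at h5
    obtain ⟨b, hb, h6⟩ := h5
    have h7 : k₀ b ≠ 0 := by
      intro h9
      rw [h9, pow_zero] at h6
      exact one_ne_zero h6
    have h8 : ψ (coeff b g₀) = 0 := (pow_eq_zero_iff h7).mp h6
    have h9 : ψ (coeff b g₀) * ψ ⟨(coeff b g)⁻¹, hgR b hb⟩ = 1 := by
      rw [← map_mul]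
      have h10 : coeff b g₀ * ⟨(coeff b g)⁻¹, hgR b hb⟩ = 1 := by
        apply hinj
        rw [map_mul, map_one]
        have h11 : ι (coeff b g₀) = coeff b g := by rw [← hmapg, coeff_map]
        rw [h11]
        exact mul_inv_cancel₀ (mem_support_iff.mp hb)
      rw [h10, map_one]
    rw [h8, zero_mul] at h9
    exact zero_ne_one h9

/-- The main theorem. -/
theorem main {n : ℕ} (hn : 0 < n) (f : MvPolynomial (Fin n) ℂ)
    (φ : Fin n → MvPolynomial (Fin n) ℂ) (w : Fin n → ℕ) (d : ℕ) (hw : ∀ i, 0 < w i)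
    (hd : ∑ i, w i ≤ d) (hf : ∀ s ∈ f.support, d ≤ ∑ i, w i * s i)
    (hφ : ∀ i, constantCoeff (φ i) = 0)
    (hμ : ∃! μ : (Fin n →₀ ℕ) → ℚ, (∀ s, 0 ≤ μ s) ∧ (∀ s, s ∉ (aeval φ f).support → μ s = 0) ∧
      (∀ i, ∑ s ∈ (aeval φ f).support, μ s * (s i : ℚ) = 1) ∧
      (d : ℚ) * ∑ s ∈ (aeval φ f).support, μ s = ((∑ i, w i : ℕ) : ℚ)) (M : ℕ) :
    ∃ m, M ≤ m ∧ facL (f ^ m) ≠ 0 := by
  classical
  obtain ⟨N, hN, hNp⟩ := one_prime f φ w d hw hf hφ
  set g := aeval φ f with hg
  obtain ⟨μ, ⟨hμ0, hμs, hμ1, hμd⟩, hμu⟩ := hμ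
  have hW : 0 < ∑ i, w i := sum_pos (fun i _ => hw i) ⟨⟨0, hn⟩, mem_univ _⟩
  have hd0 : 0 < d := lt_of_lt_of_le hW hd
  set Q : ℕ := ∏ s ∈ g.support, (μ s).den with hQ
  have hQ0 : Q ≠ 0 := prod_ne_zero_iff.mpr fun s _ => (μ s).den_nz
  obtain ⟨p, hp, hpgt, hpmod⟩ := Nat.exists_prime_gt_modEq_one (k := Q) (N + d * M + 2) hQ0
  have hp1 := hp.one_lt
  have hpN : ¬ p ∣ N := fun h => by
    have := Nat.le_of_dvd (Nat.pos_of_ne_zero hN) h
    omega
  have hQp : Q ∣ p - 1 := (Nat.modEq_iff_dvd' hp1.le).mp hpmod.symm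
  -- the exponents
  have hk : ∀ s, ∃ k : ℕ, (k : ℚ) = μ s * ((p - 1 : ℕ) : ℚ) := by
    intro s
    by_cases hs : s ∈ g.support
    · obtain ⟨c, hc⟩ := (dvd_prod_of_mem (fun s => (μ s).den) hs).trans hQp
      refine ⟨(μ s).num.toNat * c, ?_⟩
      have h1 : (((μ s).num.toNat : ℕ) : ℚ) = ((μ s).num : ℚ) := by
        have h2 : (((μ s).num.toNat : ℕ) : ℤ) = (μ s).num :=
          Int.toNat_of_nonneg (Rat.num_nonneg.mpr (hμ0 s))
        exact_mod_cast congrArg (Int.cast (R := ℚ)) h2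
      have h3 : μ s * ((μ s).den : ℚ) = (μ s).num := Rat.mul_den_eq_num (μ s)
      rw [hc]
      push_cast
      rw [h1, ← h3]
      ring
    · exact ⟨0, by rw [hμs s hs]; simp⟩
  choose k hk using hk
  have hp1q : (0 : ℚ) < ((p - 1 : ℕ) : ℚ) := by
    have : 0 < p - 1 := by omega
    exact_mod_cast this
  set m := ∑ s ∈ g.support, k s with hm
  have hmq : (m : ℚ) = (∑ s ∈ g.support, μ s) * ((p - 1 : ℕ) : ℚ) := by
    rw [hm]; push_cast
    rw [sum_mul]
    exact sum_congr rfl fun s _ => hk s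
  have hmd : m * d = (∑ i, w i) * (p - 1) := by
    have : ((m * d : ℕ) : ℚ) = (((∑ i, w i) * (p - 1) : ℕ) : ℚ) := by
      rw [Nat.cast_mul, Nat.cast_mul, hmq, ← hμd]
      ring
    exact_mod_cast this
  have hkn : ∀ s, s ∉ g.support → k s = 0 := by
    intro s hs
    have := hk s
    rw [hμs s hs, zero_mul] at this
    exact_mod_cast this
  have hmp : m < p := by
    have h1 : m * d ≤ d * (p - 1) := by
      rw [hmd]; exact Nat.mul_le_mul_right _ hd
    have h2 : m ≤ p - 1 := by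
      rw [mul_comm] at h1
      exact Nat.le_of_mul_le_mul_left h1 hd0
    omega
  have hsumk : ∑ b ∈ g.support, k b • b = diag n (p - 1) := by
    ext i
    rw [diag_apply, Finsupp.finsetSum_apply]
    have h1 : ((∑ b ∈ g.support, (k b • b) i : ℕ) : ℚ) = ((p - 1 : ℕ) : ℚ) := by
      push_cast
      have h2 := hμ1 i
      calc ∑ s ∈ g.support, (((k s • s) i : ℕ) : ℚ)
          = ∑ s ∈ g.support, μ s * (s i : ℚ) * ((p - 1 : ℕ) : ℚ) := by
            refine sum_congr rfl fun s _ => ?_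
            rw [Finsupp.smul_apply, smul_eq_mul, Nat.cast_mul, hk s]
            ring
        _ = (p - 1 : ℕ) := by rw [← sum_mul, h2, one_mul]
    exact_mod_cast h1
  refine ⟨m, ?_, hNp p hp hpN m hmp hmd.ge k ?_ hsumk ?_⟩
  · -- `m` is large
    have h1 : (p - 1) ≤ m * d := by
      rw [hmd]; exact Nat.le_mul_of_pos_left _ hW
    have h2 : d * M ≤ d * m := by rw [mul_comm d m]; omega
    exact Nat.le_of_mul_le_mul_left h2 hd0
  · rw [mem_piAntidiag]
    refine ⟨rfl, fun s hs => ?_⟩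
    by_contra h
    exact hs (hkn s h)
  · intro k' hk' hsum
    rw [mem_piAntidiag] at hk'
    have h1 : (fun s => (k' s : ℚ) / ((p - 1 : ℕ) : ℚ)) = μ := by
      apply hμu
      refine ⟨fun s => by positivity, fun s hs => ?_, fun i => ?_, ?_⟩
      · have : k' s = 0 := by
          by_contra h
          exact hs (hk'.2 s h)
        rw [this]; simp
      · have h2 := DFunLike.congr_fun hsum i
        rw [diag_apply, Finsupp.finsetSum_apply] at h2
        have h3 : ∑ s ∈ g.support, (k' s : ℚ) * (s i : ℚ) = ((p - 1 : ℕ) : ℚ) := by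
          rw [← h2]; push_cast
          refine sum_congr rfl fun s _ => ?_
          rw [Pi.smul_apply, smul_eq_mul, Nat.cast_mul]
        calc ∑ s ∈ g.support, (k' s : ℚ) / ((p - 1 : ℕ) : ℚ) * (s i : ℚ)
            = (∑ s ∈ g.support, (k' s : ℚ) * (s i : ℚ)) / ((p - 1 : ℕ) : ℚ) := by
              rw [sum_div]
              exact sum_congr rfl fun s _ => by ring
          _ = 1 := by rw [h3]; exact div_self hp1q.ne'
      · rw [← sum_div]
        have h2 : (∑ s ∈ g.support, (k' s : ℚ)) = m := by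
          rw [← hk'.1]; push_cast; rfl
        have h3 : (m : ℚ) * d = ((∑ i, w i : ℕ) : ℚ) * ((p - 1 : ℕ) : ℚ) := by
          exact_mod_cast congrArg (Nat.cast (R := ℚ)) hmd
        rw [h2, mul_div_assoc', mul_comm (d : ℚ), h3]
        field_simp
    funext s
    have h2 := congrFun h1 s
    have h3 : (k' s : ℚ) = μ s * ((p - 1 : ℕ) : ℚ) := by
      rw [← h2]; field_simp
    rw [← hk s] at h3
    exact_mod_cast h3

end Pool.Agent.MP_410f3c_al
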